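import Mathlib

/-!
The minimum `m n` of `mos G` over the cographs `G` on `n` vertices without isolated vertices is
`2 * ⌈n / 6⌉` for every `n ≥ 2`.
-/

set_option autoImplicit false
set_option linter.unusedSectionVars false

namespace Pool.Agent.Results.MP_007251_co.ExactMinimum

open Finset

/-- The set `S` of vertices of `G` induces an odd subgraph: every vertex of `S` has odd degree in
the subgraph induced by `S`. -/
def IsOddSet {V : Type*} (G : SimpleGraph V) (S : Finset V) : Prop :=
  ∀ v ∈ S, Odd ((G.neighborSet v ∩ (S : Set V)).ncard)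

/-- The largest number of vertices of an odd induced subgraph of `G`. -/
noncomputable def mos {V : Type*} (G : SimpleGraph V) : ℕ :=
  sSup {k | ∃ S : Finset V, IsOddSet G S ∧ S.card = k}

/-- A cograph: a graph without an induced path on four vertices. -/
def IsCograph {V : Type*} (G : SimpleGraph V) : Prop :=
  ¬ (SimpleGraph.pathGraph 4).IsIndContained G

/-- The minimum of `mos G` over all cographs `G` on `n` vertices without isolated vertices. -/
noncomputable def m (n : ℕ) : ℕ :=
  sInf {k | ∃ G : SimpleGraph (Fin n), IsCograph G ∧ (∀ v, ∃ w, G.Adj v w) ∧ mos G = k}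

section LinAlg

variable {ι : Type*} [Fintype ι] [DecidableEq ι]

/-- In characteristic two the quadratic form of a symmetric matrix is diagonal. -/
lemma quad (M : ι → ι → ZMod 2) (hM : ∀ i j, M i j = M j i) (y : ι → ZMod 2) :
    ∑ i, ∑ j, y i * M i j * y j = ∑ i, M i i * y i := by
  have h1 : ∑ i, ∑ j, y i * M i j * y j
      = ∑ p : ι × ι, (if p.1 = p.2 then 0 else y p.1 * M p.1 p.2 * y p.2)
        + ∑ i, y i * M i i * y i := by
    rw [Fintype.sum_prod_type, ← Finset.sum_add_distrib]
    refine Finset.sum_congr rfl fun i _ => ?_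
    have : ∑ j, y i * M i j * y j
        = ∑ j, ((if i = j then 0 else y i * M i j * y j)
          + (if i = j then y i * M i j * y j else 0)) := by
      refine Finset.sum_congr rfl fun j _ => ?_
      split_ifs <;> simp
    rw [this, Finset.sum_add_distrib]
    simp
  have h2 : ∑ p : ι × ι, (if p.1 = p.2 then 0 else y p.1 * M p.1 p.2 * y p.2) = 0 := by
    refine Finset.sum_involution (fun p _ => (p.2, p.1)) ?_ ?_ ?_ ?_
    · rintro ⟨i, j⟩ _
      by_cases h : i = j
      · simp [h]
      · have h' : ¬ j = i := fun e => h e.symm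
        simp only [h, h', if_false]
        rw [hM j i]
        have : y j * M i j * y i = y i * M i j * y j := by ring
        rw [this]
        exact CharTwo.add_self_eq_zero _
    · rintro ⟨i, j⟩ _ h
      simp only at h
      by_cases e : i = j
      · simp [e] at h
      · intro h3
        exact e (congrArg Prod.snd h3)
    · rintro ⟨i, j⟩ _
      simp
    · rintro ⟨i, j⟩ _
      rfl
  rw [h1, h2, zero_add]
  refine Finset.sum_congr rfl fun i _ => ?_
  have : y i * y i = y i := by
    generalize y i = a
    revert a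
    decide
  calc y i * M i i * y i = M i i * (y i * y i) := by ring
    _ = M i i * y i := by rw [this]

/-- The diagonal of a symmetric matrix over the field with two elements lies in its column
space. -/
lemma exists_diag (M : ι → ι → ZMod 2) (hM : ∀ i j, M i j = M j i) :
    ∃ x : ι → ZMod 2, ∀ i, ∑ j, M i j * x j = M i i := by
  by_contra hcon
  let L : (ι → ZMod 2) →ₗ[ZMod 2] (ι → ZMod 2) := Matrix.mulVecLin (Matrix.of M)
  have hd : (fun i => M i i) ∉ LinearMap.range L := by
    rintro ⟨x, hx⟩
    exact hcon ⟨x, fun i => congrFun hx i⟩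
  obtain ⟨f, hf1, hf2⟩ := Submodule.exists_le_ker_of_notMem hd
  let y : ι → ZMod 2 := fun i => f (Pi.single i 1)
  have hf : ∀ v : ι → ZMod 2, f v = ∑ i, v i * y i := by
    intro v
    conv_lhs => rw [← Finset.univ_sum_single v]
    rw [map_sum]
    refine Finset.sum_congr rfl fun i _ => ?_
    have : (Pi.single i (v i) : ι → ZMod 2) = v i • Pi.single i 1 := by
      ext j
      by_cases h : j = i
      · subst h; simp
      · simp [h]
    rw [this, map_smul, smul_eq_mul]
  have h0 : f (L y) = 0 := by
    have := hf2 (LinearMap.mem_range_self L y)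
    exact this
  apply hf1
  rw [hf, ← quad M hM y]
  rw [hf] at h0
  rw [← h0]
  refine Finset.sum_congr rfl fun i _ => ?_
  have : L y i = ∑ j, M i j * y j := rfl
  rw [this, Finset.sum_mul]
  refine Finset.sum_congr rfl fun j _ => ?_
  ring

end LinAlg

section Graph

variable {V : Type*} [Fintype V] [DecidableEq V] (G : SimpleGraph V)

open Classical in
/-- Degree of `v` inside `S`. -/
noncomputable def dg (S : Finset V) (v : V) : ℕ := (S.filter (fun u => G.Adj v u)).card

lemma ncard_eq (S : Finset V) (v : V) :
    (G.neighborSet v ∩ (S : Set V)).ncard = dg G S v := by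
  classical
  have : (G.neighborSet v ∩ (S : Set V)) = ((S.filter (fun u => G.Adj v u) : Finset V) : Set V) := by
    ext u
    simp [and_comm]
  rw [this, Set.ncard_coe_finset]
  rfl

lemma isOddSet_iff (S : Finset V) : IsOddSet G S ↔ ∀ v ∈ S, Odd (dg G S v) := by
  unfold IsOddSet
  simp only [ncard_eq]

lemma dg_union {S T : Finset V} (h : Disjoint S T) (v : V) :
    dg G (S ∪ T) v = dg G S v + dg G T v := by
  classical
  unfold dg
  rw [Finset.filter_union, Finset.card_union_of_disjoint]
  exact Finset.disjoint_filter_filter h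

lemma dg_zero {S : Finset V} {v : V} (h : ∀ u ∈ S, ¬ G.Adj v u) : dg G S v = 0 := by
  classical
  unfold dg
  rw [Finset.card_eq_zero, Finset.filter_eq_empty_iff]
  intro u hu
  exact h u hu

lemma dg_full {S : Finset V} {v : V} (h : ∀ u ∈ S, G.Adj v u) : dg G S v = S.card := by
  classical
  unfold dg
  congr 1
  rw [Finset.filter_eq_self]
  intro u hu
  exact h u hu

/-- Gallai: every graph splits into an even and an odd induced subgraph. -/
lemma gallai (S : Finset V) : ∃ O E : Finset V, Disjoint O E ∧ O ∪ E = S ∧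
    (∀ v ∈ O, Odd (dg G O v)) ∧ (∀ v ∈ E, Even (dg G E v)) := by
  classical
  let a : V → V → ZMod 2 := fun v u => if v ∈ S ∧ u ∈ S ∧ G.Adj v u then 1 else 0
  have ha : ∀ i j, a i j = a j i := by
    intro i j
    simp only [a]
    congr 1
    rw [G.adj_comm i j]
    apply propext
    tauto
  let d : V → ZMod 2 := fun v => ∑ u, a v u
  let M : V → V → ZMod 2 := fun v u => a v u + (if v = u then 1 + d v else 0)
  have hM : ∀ i j, M i j = M j i := by
    intro i j
    simp only [M, ha i j]
    by_cases h : i = j
    · subst h; rfl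
    · have h' : ¬ j = i := fun e => h e.symm
      simp [h, h']
  have haa : ∀ i, a i i = 0 := by
    intro i
    simp [a]
  obtain ⟨x0, hx0⟩ := exists_diag M hM
  have hMx : ∀ (x : V → ZMod 2) i, ∑ j, M i j * x j = ∑ j, a i j * x j + (1 + d i) * x i := by
    intro x i
    simp only [M, add_mul, Finset.sum_add_distrib]
    congr 1
    simp
    ring
  let x : V → ZMod 2 := fun v => x0 v + 1
  have hx : ∀ i, ∑ j, a i j * x j + (1 + d i) * x i = d i := by
    intro i
    have h1 := hx0 i
    rw [hMx] at h1
    simp only [M, haa, if_true, zero_add] at h1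
    have h2 : ∑ j, a i j * x j = ∑ j, a i j * x0 j + d i := by
      simp only [x, mul_add, mul_one, Finset.sum_add_distrib, d]
    rw [h2]
    have h3 : (2 : ZMod 2) = 0 := by decide
    simp only [x]
    linear_combination h1 + (d i) * h3 + h3 - (d i) * 0
  have h01 : ∀ c : ZMod 2, c = 0 ∨ c = 1 := by decide
  have hout : ∀ v, v ∉ S → x v = 0 := by
    intro v hv
    have h1 := hx v
    have h2 : ∀ u, a v u = 0 := by
      intro u
      simp [a, hv]
    have h3 : d v = 0 := by simp [d, h2]
    simp [h2, h3] at h1
    exact h1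
  refine ⟨univ.filter (fun u => x u = 1), S.filter (fun u => x u = 0), ?_, ?_, ?_, ?_⟩
  · rw [Finset.disjoint_left]
    intro u hu hu'
    simp only [mem_filter, mem_univ, true_and] at hu hu'
    rw [hu] at hu'
    exact absurd hu'.2 (by decide)
  · ext u
    simp only [mem_union, mem_filter, mem_univ, true_and]
    constructor
    · rintro (h | h)
      · by_contra hu
        rw [hout u hu] at h
        exact absurd h (by decide)
      · exact h.1
    · intro hu
      rcases h01 (x u) with h | h
      · right; exact ⟨hu, h⟩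
      · left; exact h
  · intro v hv
    simp only [mem_filter, mem_univ, true_and] at hv
    have hvS : v ∈ S := by
      by_contra hu
      rw [hout v hu] at hv
      exact absurd hv (by decide)
    have h1 := hx v
    rw [hv] at h1
    have h2 : ∑ j, a v j * x j = 1 := by
      have h3 : (2 : ZMod 2) = 0 := by decide
      linear_combination h1 - h3
    have h4 : ((dg G (univ.filter (fun u => x u = 1)) v : ℕ) : ZMod 2) = 1 := by
      refine Eq.trans ?_ h2
      unfold dg
      rw [Finset.card_eq_sum_ones, Finset.sum_filter, Finset.sum_filter]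
      push_cast
      refine Finset.sum_congr rfl fun u _ => ?_
      rcases h01 (x u) with h | h
      · simp [h]
      · have huS : u ∈ S := by
          by_contra hu
          rw [hout u hu] at h
          exact absurd h (by decide)
        simp [h, a, hvS, huS]
    rw [← Nat.not_even_iff_odd, ← ZMod.natCast_eq_zero_iff_even, h4]
    decide
  · intro v hv
    simp only [mem_filter] at hv
    obtain ⟨hvS, hv⟩ := hv
    have h1 := hx v
    rw [hv] at h1
    have h2 : ∑ j, a v j * (1 + x j) = 0 := by
      have h3 : (2 : ZMod 2) = 0 := by decide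
      have h4 : ∑ j, a v j * (1 + x j) = d v + ∑ j, a v j * x j := by
        simp only [mul_add, mul_one, Finset.sum_add_distrib, d]
      rw [h4]
      linear_combination h1 + d v * h3
    have h4 : ((dg G (S.filter (fun u => x u = 0)) v : ℕ) : ZMod 2) = 0 := by
      refine Eq.trans ?_ h2
      unfold dg
      rw [Finset.card_eq_sum_ones, Finset.sum_filter, Finset.sum_filter]
      push_cast
      rw [← Finset.sum_subset (Finset.subset_univ S)]
      · refine Finset.sum_congr rfl fun u hu => ?_
        rcases h01 (x u) with h | h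
        · simp [h, a, hvS, hu]
        · have : (1 : ZMod 2) + 1 = 0 := by decide
          simp [h, this]
      · intro u _ hu
        simp [a, hu]
    exact (ZMod.natCast_eq_zero_iff_even).1 h4

/-- Handshake lemma: an odd induced subgraph has an even number of vertices. -/
lemma even_card {S : Finset V} (h : ∀ v ∈ S, Odd (dg G S v)) : Even S.card := by
  classical
  let a : V → V → ZMod 2 := fun v u => if v ∈ S ∧ u ∈ S ∧ G.Adj v u then 1 else 0
  have ha : ∀ i j, a i j = a j i := by
    intro i j
    simp only [a]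
    congr 1
    rw [G.adj_comm i j]
    apply propext
    tauto
  have haa : ∀ i, a i i = 0 := by
    intro i
    simp [a]
  have h1 := quad a ha (fun _ => 1)
  simp only [haa, zero_mul, Finset.sum_const_zero, one_mul, mul_one] at h1
  have h2 : ∑ v, ∑ u, a v u = ((S.card : ℕ) : ZMod 2) := by
    rw [Finset.card_eq_sum_ones]
    push_cast
    rw [← Finset.sum_subset (Finset.subset_univ S)]
    · refine Finset.sum_congr rfl fun v hv => ?_
      have h3 : ((dg G S v : ℕ) : ZMod 2) = 1 := by
        obtain ⟨k, hk⟩ := h v hv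
        rw [hk]
        push_cast
        have : (2 : ZMod 2) = 0 := by decide
        rw [this]; ring
      rw [← h3]
      unfold dg
      rw [Finset.card_eq_sum_ones, Finset.sum_filter]
      push_cast
      rw [← Finset.sum_subset (Finset.subset_univ S)]
      · refine Finset.sum_congr rfl fun u hu => ?_
        simp [a, hv, hu]
      · intro u _ hu
        simp [a, hu]
    · intro v _ hv
      simp [a, hv]
  rw [h2] at h1
  exact (ZMod.natCast_eq_zero_iff_even).1 h1

lemma exists_odd_part {A : Finset V} (hA : A.Nonempty) :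
    ∃ A' ⊆ A, Odd A'.card ∧ A.card ≤ A'.card + 1 := by
  classical
  rcases Nat.even_or_odd A.card with h | h
  · obtain ⟨x, hx⟩ := hA
    refine ⟨A.erase x, Finset.erase_subset _ _, ?_, ?_⟩
    · rw [Finset.card_erase_of_mem hx]
      have : 0 < A.card := Finset.card_pos.2 ⟨x, hx⟩
      obtain ⟨k, hk⟩ := h
      exact ⟨k - 1, by omega⟩
    · rw [Finset.card_erase_of_mem hx]; omega
  · exact ⟨A, Finset.Subset.refl _, h, by omega⟩

/-- The bound for joins. -/
lemma join_bound {A B : Finset V} (hA : A.Nonempty) (hB : B.Nonempty) (hd : Disjoint A B)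
    (hj : ∀ x ∈ A, ∀ y ∈ B, G.Adj x y) :
    ∃ T ⊆ A ∪ B, (∀ v ∈ T, Odd (dg G T v)) ∧ A.card + B.card ≤ 2 * T.card + 2 := by
  classical
  obtain ⟨A', hA', hA1, hA2⟩ := exists_odd_part hA
  obtain ⟨B', hB', hB1, hB2⟩ := exists_odd_part hB
  obtain ⟨OA, EA, dA, uA, oA, eA⟩ := gallai G A'
  obtain ⟨OB, EB, dB, uB, oB, eB⟩ := gallai G B'
  have cA : OA.card + EA.card = A'.card := by rw [← uA, Finset.card_union_of_disjoint dA]
  have cB : OB.card + EB.card = B'.card := by rw [← uB, Finset.card_union_of_disjoint dB]
  have evA := even_card G oA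
  have evB := even_card G oB
  have hOA : OA ⊆ A := fun x hx => hA' (uA ▸ Finset.mem_union_left _ hx)
  have hEA : EA ⊆ A := fun x hx => hA' (uA ▸ Finset.mem_union_right _ hx)
  have hOB : OB ⊆ B := fun x hx => hB' (uB ▸ Finset.mem_union_left _ hx)
  have hEB : EB ⊆ B := fun x hx => hB' (uB ▸ Finset.mem_union_right _ hx)
  have dO : Disjoint OA OB := Finset.disjoint_of_subset_left hOA
    (Finset.disjoint_of_subset_right hOB hd)
  have dE : Disjoint EA EB := Finset.disjoint_of_subset_left hEA
    (Finset.disjoint_of_subset_right hEB hd)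
  have odA : Odd EA.card := by
    rcases evA with ⟨k, hk⟩
    rcases hA1 with ⟨l, hl⟩
    exact ⟨l - k, by omega⟩
  have odB : Odd EB.card := by
    rcases evB with ⟨k, hk⟩
    rcases hB1 with ⟨l, hl⟩
    exact ⟨l - k, by omega⟩
  have h1 : ∀ v ∈ OA ∪ OB, Odd (dg G (OA ∪ OB) v) := by
    intro v hv
    rw [dg_union G dO]
    rcases Finset.mem_union.1 hv with hv | hv
    · rw [dg_full G (S := OB) (fun u hu => hj v (hOA hv) u (hOB hu))]
      exact (oA v hv).add_even evB
    · rw [dg_full G (S := OA) (fun u hu => (hj u (hOA hu) v (hOB hv)).symm)]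
      exact evA.add_odd (oB v hv)
  have h2 : ∀ v ∈ EA ∪ EB, Odd (dg G (EA ∪ EB) v) := by
    intro v hv
    rw [dg_union G dE]
    rcases Finset.mem_union.1 hv with hv | hv
    · rw [dg_full G (S := EB) (fun u hu => hj v (hEA hv) u (hEB hu))]
      exact (eA v hv).add_odd odB
    · rw [dg_full G (S := EA) (fun u hu => (hj u (hEA hu) v (hEB hv)).symm)]
      exact odA.add_even (eB v hv)
  have c1 : (OA ∪ OB).card = OA.card + OB.card := Finset.card_union_of_disjoint dO
  have c2 : (EA ∪ EB).card = EA.card + EB.card := Finset.card_union_of_disjoint dE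
  by_cases hc : EA.card + EB.card ≤ OA.card + OB.card
  · exact ⟨OA ∪ OB, Finset.union_subset_union hOA hOB, h1, by omega⟩
  · exact ⟨EA ∪ EB, Finset.union_subset_union hEA hEB, h2, by omega⟩

/-- No induced path `a - b - c - d`. -/
def P4free (R : V → V → Prop) : Prop :=
  ∀ a b c d : V, a ≠ c → b ≠ d → a ≠ d → R a b → R b c → R c d → ¬ R a c → ¬ R b d → R a d

/-- One half of the induction step of Seinsche's theorem. -/
lemma seinsche_step (R : V → V → Prop) (hs : ∀ a b, R a b → R b a)
    (hP : P4free R) (S A B : Finset V) (v : V) (hv : v ∉ S)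
    (hA : A.Nonempty) (hB : B.Nonempty) (hd : Disjoint A B) (hu : A ∪ B = S)
    (hn : ∀ x ∈ A, ∀ y ∈ B, ¬ R x y) :
    ∃ A' B' : Finset V, A'.Nonempty ∧ B'.Nonempty ∧ Disjoint A' B' ∧ A' ∪ B' = insert v S ∧
      ((∀ x ∈ A', ∀ y ∈ B', ¬ R x y) ∨ (∀ x ∈ A', ∀ y ∈ B', R x y)) := by
  classical
  -- it is enough to treat the case that `v` has a non-neighbour in `A`
  have key : ∀ A B : Finset V, A.Nonempty → B.Nonempty → Disjoint A B → A ∪ B = S →
      (∀ x ∈ A, ∀ y ∈ B, ¬ R x y) → (∃ w ∈ A, ¬ R v w) →
      ∃ A' B' : Finset V, A'.Nonempty ∧ B'.Nonempty ∧ Disjoint A' B' ∧ A' ∪ B' = insert v S ∧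
      ((∀ x ∈ A', ∀ y ∈ B', ¬ R x y) ∨ (∀ x ∈ A', ∀ y ∈ B', R x y)) := by
    intro A B hA hB hd hu hn ⟨w, hwA, hw⟩
    -- closed subsets of `A` containing `w`
    let F := A.powerset.filter (fun T => w ∈ T ∧ ∀ x ∈ T, ∀ y ∈ A, y ∉ T → ¬ R x y)
    have hF : F.Nonempty := ⟨A, by
      simp only [F, mem_filter, mem_powerset]
      exact ⟨Finset.Subset.refl _, hwA, fun x _ y hy hy' => absurd hy hy'⟩⟩
    obtain ⟨T, hT, hmin⟩ := Finset.exists_min_image F Finset.card hF
    simp only [F, mem_filter, mem_powerset] at hT
    obtain ⟨hTA, hwT, hTc⟩ := hT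
    have hvA : v ∉ A := fun h => hv (hu ▸ Finset.mem_union_left _ h)
    have hvB : v ∉ B := fun h => hv (hu ▸ Finset.mem_union_right _ h)
    by_cases hex : ∃ x ∈ T, R v x
    · -- there is an edge `x y` in `T` with `R v x`, `¬ R v y`
      obtain ⟨x, hxT, y, hyT, hvx, hvy, hxy⟩ : ∃ x ∈ T, ∃ y ∈ T, R v x ∧ ¬ R v y ∧ R y x := by
        by_contra hcon
        push Not at hcon
        have hT2 : T.filter (fun y => ¬ R v y) ∈ F := by
          simp only [F, mem_filter, mem_powerset]
          refine ⟨fun z hz => hTA (Finset.mem_filter.1 hz).1, ⟨hwT, hw⟩, ?_⟩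
          rintro y ⟨hyT, hvy⟩ z hz hz'
          by_cases hzT : z ∈ T
          · have hvz : R v z := by
              by_contra h
              exact hz' ⟨hzT, h⟩
            exact hcon z hzT y hyT hvz hvy
          · exact hTc y hyT z hz hzT
        have h1 := hmin _ hT2
        obtain ⟨x, hxT, hvx⟩ := hex
        have h2 : (T.filter (fun y => ¬ R v y)).card < T.card := by
          apply Finset.card_lt_card
          refine ⟨Finset.filter_subset _ _, fun h => ?_⟩
          have := h hxT
          simp only [mem_filter] at this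
          exact this.2 hvx
        omega
      by_cases hzB : ∃ z ∈ B, R v z
      · exfalso
        obtain ⟨z, hz, hvz⟩ := hzB
        have hyz : ¬ R y z := hn y (hTA hyT) z hz
        apply hyz
        refine hP y x v z ?_ ?_ ?_ hxy (hs _ _ hvx) hvz ?_ (hn x (hTA hxT) z hz)
        · rintro rfl; exact hvA (hTA hyT)
        · rintro rfl; exact Finset.disjoint_left.1 hd (hTA hxT) hz
        · rintro rfl; exact Finset.disjoint_left.1 hd (hTA hyT) hz
        · exact fun h => hvy (hs _ _ h)
      · push Not at hzB
        refine ⟨B, insert v A, hB, Finset.insert_nonempty _ _, ?_, ?_, Or.inl ?_⟩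
        · rw [Finset.disjoint_insert_right]
          exact ⟨hvB, hd.symm⟩
        · rw [← hu]
          ext z
          simp only [mem_union, mem_insert]
          tauto
        · intro x hx y hy
          rcases Finset.mem_insert.1 hy with rfl | hy
          · exact fun h => hzB x hx (hs _ _ h)
          · exact fun h => hn y hy x hx (hs _ _ h)
    · push Not at hex
      refine ⟨T, insert v (S \ T), ⟨w, hwT⟩, Finset.insert_nonempty _ _, ?_, ?_, Or.inl ?_⟩
      · rw [Finset.disjoint_insert_right]
        exact ⟨fun h => hvA (hTA h), Finset.disjoint_sdiff⟩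
      · ext z
        simp only [mem_union, mem_insert, mem_sdiff]
        have : z ∈ T → z ∈ S := fun h => hu ▸ Finset.mem_union_left _ (hTA h)
        tauto
      · intro x hx y hy
        rcases Finset.mem_insert.1 hy with rfl | hy
        · exact fun h => hex x hx (hs _ _ h)
        · obtain ⟨hyS, hyT⟩ := Finset.mem_sdiff.1 hy
          rw [← hu] at hyS
          rcases Finset.mem_union.1 hyS with h | h
          · exact hTc x hx y h hyT
          · exact hn x (hTA hx) y h
  by_cases hall : ∀ w ∈ S, R v w
  · refine ⟨{v}, S, Finset.singleton_nonempty _, ?_, ?_, ?_, Or.inr ?_⟩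
    · obtain ⟨a, ha⟩ := hA
      exact ⟨a, hu ▸ Finset.mem_union_left _ ha⟩
    · rwa [Finset.disjoint_singleton_left]
    · rfl
    · intro x hx y hy
      rw [Finset.mem_singleton.1 hx]
      exact hall y hy
  · push Not at hall
    obtain ⟨w, hw, hw'⟩ := hall
    rw [← hu] at hw
    rcases Finset.mem_union.1 hw with h | h
    · exact key A B hA hB hd hu hn ⟨w, h, hw'⟩
    · exact key B A hB hA hd.symm (by rw [Finset.union_comm]; exact hu)
        (fun x hx y hy e => hn y hy x hx (hs _ _ e)) ⟨w, h, hw'⟩

/-- Seinsche's theorem: a set of at least two vertices of a cograph splits into two nonempty parts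
with all edges or no edges between them. -/
lemma seinsche (hP : P4free G.Adj) : ∀ S : Finset V, 2 ≤ S.card →
    ∃ A B : Finset V, A.Nonempty ∧ B.Nonempty ∧ Disjoint A B ∧ A ∪ B = S ∧
      ((∀ x ∈ A, ∀ y ∈ B, ¬ G.Adj x y) ∨ (∀ x ∈ A, ∀ y ∈ B, G.Adj x y)) := by
  classical
  intro S
  induction S using Finset.induction_on with
  | empty => intro h; simp at h
  | insert v S hv ih =>
    intro hc
    rw [Finset.card_insert_of_notMem hv] at hc
    rcases Nat.lt_or_ge S.card 2 with h1 | h1
    · have h2 : S.card = 1 := by omega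
      obtain ⟨w, hw⟩ := Finset.card_eq_one.1 h2
      subst hw
      refine ⟨{v}, {w}, Finset.singleton_nonempty _, Finset.singleton_nonempty _, ?_, rfl, ?_⟩
      · rw [Finset.disjoint_singleton_left]; exact hv
      · by_cases h : G.Adj v w
        · right
          intro x hx y hy
          rw [Finset.mem_singleton.1 hx, Finset.mem_singleton.1 hy]; exact h
        · left
          intro x hx y hy
          rw [Finset.mem_singleton.1 hx, Finset.mem_singleton.1 hy]; exact h
    · obtain ⟨A, B, hA, hB, hd, hu, h | h⟩ := ih h1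
      · exact seinsche_step G.Adj (fun a b h => h.symm) hP S A B v hv hA hB hd hu h
      · -- pass to the complement
        let R : V → V → Prop := fun a b => a ≠ b ∧ ¬ G.Adj a b
        have hR : P4free R := by
          intro a b c d hac hbd had hab hbc hcd hac' hbd'
          refine ⟨had, fun h => ?_⟩
          have e1 : G.Adj a c := by
            by_contra h'
            exact hac' ⟨hac, h'⟩
          have e2 : G.Adj b d := by
            by_contra h'
            exact hbd' ⟨hbd, h'⟩
          -- the path `b - d - a - c`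
          exact hbc.2 (hP b d a c hab.1.symm hcd.1.symm hbc.1 e2 h.symm e1
            (fun e => hab.2 e.symm) (fun e => hcd.2 e.symm))
        obtain ⟨A', B', h1, h2, h3, h4, h5⟩ := seinsche_step R
          (fun a b h => ⟨h.1.symm, fun e => h.2 e.symm⟩) hR S A B v hv hA hB hd hu
          (fun x hx y hy e => e.2 (h x hx y hy))
        refine ⟨A', B', h1, h2, h3, h4, ?_⟩
        rcases h5 with h5 | h5
        · right
          intro x hx y hy
          by_contra e
          exact h5 x hx y hy ⟨fun e' => Finset.disjoint_left.1 h3 hx (e' ▸ hy), e⟩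
        · left
          intro x hx y hy
          exact (h5 x hx y hy).2

/-- The lower bound. -/
lemma lower (hP : P4free G.Adj) : ∀ k : ℕ, ∀ S : Finset V, S.card = k →
    (∀ v ∈ S, ∃ w ∈ S, G.Adj v w) →
    ∃ T ⊆ S, (∀ v ∈ T, Odd (dg G T v)) ∧ S.card ≤ 3 * T.card := by
  classical
  intro k
  induction k using Nat.strong_induction_on with
  | _ k ih =>
    intro S hS hiso
    rcases S.eq_empty_or_nonempty with h0 | ⟨v, hv⟩
    · subst h0
      exact ⟨∅, Finset.Subset.refl _, by simp, by simp⟩
    obtain ⟨w, hw, hvw⟩ := hiso v hv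
    have hvw' : v ≠ w := hvw.ne
    have h2 : 2 ≤ S.card := Finset.one_lt_card.2 ⟨v, hv, w, hw, hvw'⟩
    obtain ⟨A, B, hA, hB, hd, hu, h | h⟩ := seinsche G hP S h2
    · have hcard : A.card + B.card = S.card := by rw [← hu, Finset.card_union_of_disjoint hd]
      have pA := Finset.card_pos.2 hA
      have pB := Finset.card_pos.2 hB
      obtain ⟨TA, hTA, oA, cA⟩ := ih A.card (by omega) A rfl (by
        intro x hx
        obtain ⟨y, hy, hxy⟩ := hiso x (hu ▸ Finset.mem_union_left _ hx)
        rw [← hu] at hy
        rcases Finset.mem_union.1 hy with hy | hy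
        · exact ⟨y, hy, hxy⟩
        · exact absurd hxy (h x hx y hy))
      obtain ⟨TB, hTB, oB, cB⟩ := ih B.card (by omega) B rfl (by
        intro x hx
        obtain ⟨y, hy, hxy⟩ := hiso x (hu ▸ Finset.mem_union_right _ hx)
        rw [← hu] at hy
        rcases Finset.mem_union.1 hy with hy | hy
        · exact absurd hxy.symm (h y hy x hx)
        · exact ⟨y, hy, hxy⟩)
      have dT : Disjoint TA TB := Finset.disjoint_of_subset_left hTA
        (Finset.disjoint_of_subset_right hTB hd)
      refine ⟨TA ∪ TB, hu ▸ Finset.union_subset_union hTA hTB, ?_, ?_⟩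
      · intro x hx
        rw [dg_union G dT]
        rcases Finset.mem_union.1 hx with hx | hx
        · rw [dg_zero G (S := TB) (fun u hu => h x (hTA hx) u (hTB hu))]
          exact oA x hx
        · rw [dg_zero G (S := TA) (fun u hu e => h u (hTA hu) x (hTB hx) e.symm), zero_add]
          exact oB x hx
      · rw [Finset.card_union_of_disjoint dT]; omega
    · have hcard : A.card + B.card = S.card := by rw [← hu, Finset.card_union_of_disjoint hd]
      rcases Nat.lt_or_ge S.card 6 with h6 | h6
      · refine ⟨{v, w}, ?_, ?_, ?_⟩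
        · intro x hx
          rcases Finset.mem_insert.1 hx with rfl | hx
          · exact hv
          · rw [Finset.mem_singleton.1 hx]; exact hw
        · have e1 : dg G {v, w} v = 1 := by
            unfold dg
            rw [Finset.filter_insert, Finset.filter_singleton]
            simp [hvw]
          have e2 : dg G {v, w} w = 1 := by
            unfold dg
            rw [Finset.filter_insert, Finset.filter_singleton]
            simp [hvw.symm]
          intro x hx
          rcases Finset.mem_insert.1 hx with rfl | hx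
          · rw [e1]; exact odd_one
          · rw [Finset.mem_singleton.1 hx, e2]; exact odd_one
        · rw [Finset.card_pair hvw']; omega
      · obtain ⟨T, hT, oT, cT⟩ := join_bound G hA hB hd h
        exact ⟨T, hu ▸ hT, oT, by omega⟩

end Graph

lemma p4free_of_cograph {V : Type*} [Fintype V] [DecidableEq V] {G : SimpleGraph V}
    (h : IsCograph G) : P4free G.Adj := by
  intro a b c d hac hbd had hab hbc hcd hac' hbd'
  by_contra had'
  apply h
  refine ⟨⟨⟨![a, b, c, d], ?_⟩, ?_⟩⟩
  · intro i j hij
    have h1 := hab.ne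
    have h2 := hbc.ne
    have h3 := hcd.ne
    fin_cases i <;> fin_cases j <;> simp_all [Ne, eq_comm]
  · intro i j
    have e1 : ¬ G.Adj c a := fun e => hac' e.symm
    have e2 : ¬ G.Adj d b := fun e => hbd' e.symm
    have e3 : ¬ G.Adj d a := fun e => had' e.symm
    fin_cases i <;> fin_cases j <;>
      simp [SimpleGraph.pathGraph_adj, hab, hbc, hcd, hab.symm, hbc.symm, hcd.symm, hac', hbd',
        had', e1, e2, e3]

lemma mos_bdd {V : Type*} [Fintype V] (G : SimpleGraph V) :
    BddAbove {k | ∃ S : Finset V, IsOddSet G S ∧ S.card = k} := by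
  refine ⟨Fintype.card V, ?_⟩
  rintro k ⟨S, _, rfl⟩
  exact Finset.card_le_univ S

lemma mos_lower {n : ℕ} {G : SimpleGraph (Fin n)} (hc : IsCograph G)
    (hi : ∀ v, ∃ w, G.Adj v w) : 2 * ((n + 5) / 6) ≤ mos G := by
  obtain ⟨T, _, oT, cT⟩ := lower G (p4free_of_cograph hc) _ univ rfl
    (fun v _ => by obtain ⟨w, hw⟩ := hi v; exact ⟨w, mem_univ _, hw⟩)
  have hev := even_card G oT
  have h1 : T.card ≤ mos G := le_csSup (mos_bdd G) ⟨T, (isOddSet_iff G T).2 oT, rfl⟩
  rw [Finset.card_univ, Fintype.card_fin] at cT
  obtain ⟨k, hk⟩ := hev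
  omega

/-- The extremal graph: vertices `i, j` are adjacent iff they are congruent modulo `t` and
`i / t`, `j / t` are not congruent modulo `3`. -/
def extremal (n t : ℕ) : SimpleGraph (Fin n) where
  Adj i j := i.val % t = j.val % t ∧ (i.val / t) % 3 ≠ (j.val / t) % 3
  symm := ⟨fun i j h => ⟨h.1.symm, h.2.symm⟩⟩
  loopless := ⟨fun i h => h.2 rfl⟩

lemma extremal_cograph (n t : ℕ) : IsCograph (extremal n t) := by
  rintro ⟨f⟩
  have h01 : (extremal n t).Adj (f 0) (f 1) := f.map_rel_iff.2 (by simp [SimpleGraph.pathGraph_adj])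
  have h12 : (extremal n t).Adj (f 1) (f 2) := f.map_rel_iff.2 (by simp [SimpleGraph.pathGraph_adj])
  have h23 : (extremal n t).Adj (f 2) (f 3) := f.map_rel_iff.2 (by simp [SimpleGraph.pathGraph_adj])
  have h02 : ¬ (extremal n t).Adj (f 0) (f 2) := fun h => by
    have := f.map_rel_iff.1 h
    simp [SimpleGraph.pathGraph_adj] at this
  have h13 : ¬ (extremal n t).Adj (f 1) (f 3) := fun h => by
    have := f.map_rel_iff.1 h
    simp [SimpleGraph.pathGraph_adj] at this
  have h03 : ¬ (extremal n t).Adj (f 0) (f 3) := fun h => by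
    have := f.map_rel_iff.1 h
    simp [SimpleGraph.pathGraph_adj] at this
  simp only [extremal] at h01 h12 h23 h02 h13 h03
  obtain ⟨a1, b1⟩ := h01
  obtain ⟨a2, b2⟩ := h12
  obtain ⟨a3, b3⟩ := h23
  have c1 : (f 0).val / t % 3 = (f 2).val / t % 3 := by
    by_contra h; exact h02 ⟨a1.trans a2, h⟩
  have c2 : (f 1).val / t % 3 = (f 3).val / t % 3 := by
    by_contra h; exact h13 ⟨a2.trans a3, h⟩
  have c3 : (f 0).val / t % 3 = (f 3).val / t % 3 := by
    by_contra h; exact h03 ⟨(a1.trans a2).trans a3, h⟩
  exact b1 (c3.trans c2.symm)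

lemma extremal_no_isolated {n t : ℕ} (ht : 0 < t) (hn : 2 * t ≤ n) (v : Fin n) :
    ∃ w, (extremal n t).Adj v w := by
  have hr : v.val % t < t := Nat.mod_lt _ ht
  by_cases h : (v.val / t) % 3 = 0
  · refine ⟨⟨v.val % t + t, by omega⟩, ?_, ?_⟩
    · simp
    · have : (v.val % t + t) / t = 1 := by
        rw [Nat.add_div_right _ ht, Nat.div_eq_of_lt hr]
      simp only
      rw [this, h]
      decide
  · refine ⟨⟨v.val % t, by omega⟩, ?_, ?_⟩
    · simp
    · simp only
      rw [Nat.div_eq_of_lt hr]
      simpa using h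

lemma extremal_upper {n t : ℕ} (ht : 0 < t) (hn : n ≤ 6 * t) (S : Finset (Fin n))
    (hS : IsOddSet (extremal n t) S) : S.card ≤ 2 * t := by
  classical
  rw [isOddSet_iff] at hS
  have h1 : S.card = ∑ b ∈ Finset.range t, (S.filter (fun i => i.val % t = b)).card :=
    Finset.card_eq_sum_card_fiberwise (fun i _ => by
      simp only [Finset.coe_range, Set.mem_Iio]
      exact Nat.mod_lt _ ht)
  rw [h1]
  have h2 : ∀ b ∈ Finset.range t, (S.filter (fun i => i.val % t = b)).card ≤ 2 := by
    intro b hb
    set T := S.filter (fun i : Fin n => i.val % t = b) with hT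
    let P : ℕ → Finset (Fin n) := fun j => T.filter (fun i => (i.val / t) % 3 = j)
    have hcard : T.card = (P 0).card + (P 1).card + (P 2).card := by
      have : T.card = ∑ j ∈ Finset.range 3, (P j).card :=
        Finset.card_eq_sum_card_fiberwise (fun i _ => by
          simp only [Finset.coe_range, Set.mem_Iio]
          exact Nat.mod_lt _ (by norm_num))
      rw [this, Finset.sum_range_succ, Finset.sum_range_succ, Finset.sum_range_succ,
        Finset.sum_range_zero, zero_add]
    have hle : ∀ j, j < 3 → (P j).card ≤ 2 := by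
      intro j hj
      have hsub : ∀ i ∈ P j, i.val = b + t * j ∨ i.val = b + t * (j + 3) := by
        intro i hi
        simp only [P, T, mem_filter] at hi
        obtain ⟨⟨_, hi1⟩, hi2⟩ := hi
        have h3 : i.val = i.val % t + t * (i.val / t) := (Nat.mod_add_div _ _).symm
        have h4 : i.val / t < 6 := by
          rw [Nat.div_lt_iff_lt_mul ht]
          exact lt_of_lt_of_le i.isLt hn
        have h5 : i.val / t = j ∨ i.val / t = j + 3 := by
          clear h3
          generalize i.val / t = q at hi2 h4 ⊢
          omega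
        rcases h5 with h5 | h5
        · left; rw [← hi1, ← h5]; exact h3
        · right; rw [← hi1, ← h5]; exact h3
      have : ((P j).image (fun i : Fin n => i.val)).card ≤ ({b + t * j, b + t * (j + 3)} : Finset ℕ).card := by
        apply Finset.card_le_card
        intro x hx
        obtain ⟨i, hi, rfl⟩ := Finset.mem_image.1 hx
        rcases hsub i hi with h | h
        · simp [h]
        · simp [h]
      rw [Finset.card_image_of_injective _ Fin.val_injective] at this
      exact this.trans Finset.card_le_two
    have hdeg : ∀ j, j < 3 → 0 < (P j).card → Odd (T.card - (P j).card) := by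
      intro j hj hpos
      obtain ⟨v, hv⟩ := Finset.card_pos.1 hpos
      have hv' := hv
      simp only [P, T, mem_filter] at hv'
      obtain ⟨⟨hvS, hv1⟩, hv2⟩ := hv'
      have h3 := hS v hvS
      have h4 : dg (extremal n t) S v = T.card - (P j).card := by
        unfold dg
        rw [← Finset.card_sdiff_of_subset (Finset.filter_subset _ _)]
        congr 1
        ext u
        simp only [extremal, mem_filter, mem_sdiff, T, not_and, P]
        constructor
        · rintro ⟨a1, a2, a3⟩
          refine ⟨⟨a1, a2.symm.trans hv1⟩, fun _ => ?_⟩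
          intro a4
          exact a3 (hv2.trans a4.symm)
        · rintro ⟨⟨a1, a2⟩, a3⟩
          refine ⟨a1, hv1.trans a2.symm, fun a4 => ?_⟩
          exact a3 ⟨a1, a2⟩ (a4.symm.trans hv2)
      rw [h4] at h3
      exact h3
    have l0 := hle 0 (by norm_num)
    have l1 := hle 1 (by norm_num)
    have l2 := hle 2 (by norm_num)
    have d0 := hdeg 0 (by norm_num)
    have d1 := hdeg 1 (by norm_num)
    have d2 := hdeg 2 (by norm_num)
    rw [hcard] at d0 d1 d2 ⊢
    simp only [Nat.odd_iff] at d0 d1 d2
    omega
  calc ∑ b ∈ Finset.range t, (S.filter (fun i => i.val % t = b)).card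
      ≤ ∑ _b ∈ Finset.range t, 2 := Finset.sum_le_sum h2
    _ = 2 * t := by simp [mul_comm]

/-- **Main theorem.** For every `n ≥ 2` the minimum of `mos G` over all cographs `G` on `n`
vertices without isolated vertices is `2 * ⌈n / 6⌉`, and it is attained. -/
theorem result : ∀ n : ℕ, 2 ≤ n →
    m n = 2 * ⌈(n : ℚ) / 6⌉₊ ∧
    (∀ G : SimpleGraph (Fin n), IsCograph G → (∀ v, ∃ w, G.Adj v w) → 2 * ⌈(n : ℚ) / 6⌉₊ ≤ mos G) ∧
    (∃ G : SimpleGraph (Fin n), IsCograph G ∧ (∀ v, ∃ w, G.Adj v w) ∧
      mos G = 2 * ⌈(n : ℚ) / 6⌉₊) := by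
  intro n hn
  have hceil : ⌈(n : ℚ) / 6⌉₊ = (n + 5) / 6 := by
    rw [Nat.ceil_eq_iff (by omega)]
    have h1 : 6 * ((n + 5) / 6) ≤ n + 5 := Nat.mul_div_le _ _
    have h2 : n ≤ 6 * ((n + 5) / 6) := by omega
    have h3 : 1 ≤ (n + 5) / 6 := by omega
    constructor
    · rw [Nat.cast_sub h3]
      have h1' : (6 : ℚ) * (((n + 5) / 6 : ℕ) : ℚ) ≤ n + 5 := by exact_mod_cast h1
      push_cast
      rw [lt_div_iff₀ (by norm_num)]
      push_cast at h1'
      linarith
    · rw [div_le_iff₀ (by norm_num)]
      have h2' : (n : ℚ) ≤ 6 * (((n + 5) / 6 : ℕ) : ℚ) := by exact_mod_cast h2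
      linarith
  rw [hceil]
  set t := (n + 5) / 6 with ht
  have ht0 : 0 < t := by omega
  have hlow : ∀ G : SimpleGraph (Fin n), IsCograph G → (∀ v, ∃ w, G.Adj v w) → 2 * t ≤ mos G :=
    fun G hc hi => mos_lower hc hi
  have hex : ∃ G : SimpleGraph (Fin n), IsCograph G ∧ (∀ v, ∃ w, G.Adj v w) ∧
      mos G = 2 * t := by
    refine ⟨extremal n t, extremal_cograph n t, extremal_no_isolated ht0 (by omega), ?_⟩
    apply le_antisymm
    · apply csSup_le
      · exact ⟨0, ∅, by intro v hv; simp at hv, by simp⟩
      · rintro k ⟨S, hS, rfl⟩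
        exact extremal_upper ht0 (by omega) S hS
    · exact hlow _ (extremal_cograph n t) (extremal_no_isolated ht0 (by omega))
  refine ⟨?_, hlow, hex⟩
  apply le_antisymm
  · apply Nat.sInf_le
    obtain ⟨G, h1, h2, h3⟩ := hex
    exact ⟨G, h1, h2, h3⟩
  · apply le_csInf
    · obtain ⟨G, h1, h2, h3⟩ := hex
      exact ⟨_, G, h1, h2, h3⟩
    · rintro k ⟨G, h1, h2, rfl⟩
      exact hlow G h1 h2

end Pool.Agent.Results.MP_007251_co.ExactMinimum
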